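import Mathlib
import Pool.Agent.H88.Tilf3

open Pool.Agent.H88.Tilf

theorem Pool.Agent.Results.MP_eb9c50_an.Germ.result :
    (∀ (E : Set ℤ) (n : ℕ) (θ : Fin n → UnitAddCircle) (δ : ℝ), 0 < δ →
      (AutoCont E ↔ AutoCont (E ∩ Bohr θ δ))) ∧
    (∀ (E : Set ℤ) (n : ℕ) (θ : Fin n → UnitAddCircle) (δ : ℝ), 0 < δ →
      (E ∩ Bohr θ δ).Finite → AutoCont E) ∧
    (∀ m : ℤ, 2 ≤ m → ¬ IsSidon {k : ℤ | ¬ m ∣ k} ∧ AutoCont {k : ℤ | ¬ m ∣ k}) :=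
  ⟨fun E n θ _ hδ => germ n E θ hδ,
    fun E n θ _ hδ h => (germ n E θ hδ).2 (autoCont_finite h),
    fun _ hm => ⟨not_sidon_nonmult hm, autoCont_nonmult hm⟩⟩
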